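import Pool.Agent.Y504.CO.Stm5
import Pool.Agent.Y96.CO.T1
import Pool.Agent.Y600.CO.TI

/-!
# Minimal limits contain only finitely many periodic points (job CO-K3 of helper504)
-/

set_option autoImplicit false

open scoped Topology
open Filter Set Metric

universe u

namespace Pool.Agent.Y987.CO.K3

open Pool.Agent.Y504.CO Pool.Agent.TH80.OMS Pool.Agent.Y600.CO

variable {X : Type u} [MetricSpace X] [CompactSpace X]

/-- finitely many points of given period -/
theorem fix_finite (f : X ≃ₜ X) (hiso : ∀ p ∈ Per f, Isolated f p) (m : ℕ) (hm : 1 ≤ m) :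
    {x : X | f^[m] x = x}.Finite := by
  have hcl : IsClosed {x : X | f^[m] x = x} :=
    isClosed_eq (f.continuous.iterate m) continuous_id
  have key : ∀ q ∈ {x : X | f^[m] x = x}, {y | f^[m] y = y → y ∈ orb f q} ∈ 𝓝 q := by
    intro q hq
    have hqP : q ∈ Per f := ⟨m, hm, hq⟩
    obtain ⟨O, hO, hqO, hOo⟩ := hiso q hqP
    have h1 : ∀ᶠ y in 𝓝 q, ∀ i ∈ Finset.range m, f^[i] y ∈ O :=
      (Filter.eventually_all_finset _).2 fun i _ =>
        (f.continuous.iterate i).continuousAt.eventually (hO.mem_nhds (hqO ⟨i, rfl⟩))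
    filter_upwards [h1] with y hy hym
    refine per_fwd f hOo y ⟨m, hm, hym⟩ fun l _ => subset_closure ?_
    rw [Pool.Agent.Y96.CO.T1.iter_mod hym l]
    exact hy _ (Finset.mem_range.2 (Nat.mod_lt _ hm))
  obtain ⟨t, ht, hts⟩ := hcl.isCompact.elim_nhds_subcover
    (fun q => {y | f^[m] y = y → y ∈ orb f q}) key
  have hfin : (⋃ q ∈ t, orb f q).Finite := by
    refine t.finite_toSet.biUnion fun q hq => ?_
    exact orb_finite f ⟨m, hm, ht q hq⟩
  refine hfin.subset fun y hy => ?_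
  obtain ⟨q, hq, hyq⟩ := mem_iUnion₂.1 (hts hy)
  exact mem_iUnion₂.2 ⟨q, hq, hyq hy⟩

theorem per_countable (f : X ≃ₜ X) (hiso : ∀ p ∈ Per f, Isolated f p) : (Per f).Countable := by
  have h : (⋃ m : ℕ, {x : X | f^[m + 1] x = x}).Countable :=
    countable_iUnion fun m => (fix_finite f hiso (m + 1) (by omega)).countable
  refine h.mono ?_
  rintro x ⟨m, hm, hx⟩
  refine mem_iUnion.2 ⟨m - 1, ?_⟩
  show f^[m - 1 + 1] x = x
  rw [Nat.sub_add_cancel hm]
  exact hx

/-- a limit with a periodic isolated point is a periodic orbit -/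
theorem lim_orb (h0 : S_T0.{u}) (f : X ≃ₜ X) {H : Set X} (hH : IsLim f H)
    {z : X} {ρ : ℝ} (hz : Isol H ρ z) (hp : z ∈ Per f) : H ⊆ orb f z := by
  obtain ⟨-, himg, -, hconn⟩ := h0 X f
  have hI := himg H hH
  have hPH : orb f z ⊆ H := by
    rintro _ ⟨i, rfl⟩
    exact TI.image_it f hI hz.2.1 i
  have hiter : ∀ i : ℕ, Topology.IsOpenEmbedding (f^[i]) := fun i => by
    have h1 : (f^[i]) = ⇑(f ^ i) := by
      funext x; exact (pow_it f i x).symm
    rw [h1]; exact (f ^ i).isOpenEmbedding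
  have hopen : IsOpen (⋃ i : ℕ, f^[i] '' ball z ρ) :=
    isOpen_iUnion fun i => (hiter i).isOpenMap _ isOpen_ball
  have hQ : IsClosed (H \ ⋃ i : ℕ, f^[i] '' ball z ρ) := hH.1.sdiff hopen
  have hmem : ∀ x ∈ H, x ∈ (⋃ i : ℕ, f^[i] '' ball z ρ) → x ∈ orb f z := by
    intro x hx hx2
    obtain ⟨i, u, hu, rfl⟩ := mem_iUnion.1 hx2
    have hu2 : u ∈ H := TI.back_it f hI i hx
    rw [hz.2.2 u hu2 hu]
    exact ⟨i, rfl⟩
  have hmem2 : ∀ x ∈ orb f z, x ∈ (⋃ i : ℕ, f^[i] '' ball z ρ) := by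
    rintro _ ⟨i, rfl⟩
    exact mem_iUnion.2 ⟨i, z, mem_ball_self hz.1, rfl⟩
  have hfP : ∀ x ∈ orb f z, f x ∈ orb f z := by
    rintro _ ⟨i, rfl⟩
    exact ⟨i + 1, Function.iterate_succ_apply' _ _ _⟩
  have hfP2 : ∀ x, f x ∈ orb f z → x ∈ orb f z := by
    rintro x ⟨i, hi⟩
    obtain ⟨m, hm, hmz⟩ := hp
    refine ⟨i + m - 1, f.injective ?_⟩
    have h1 : f (f^[i + m - 1] z) = f^[i + m - 1 + 1] z := (Function.iterate_succ_apply' _ _ _).symm
    show f (f^[i + m - 1] z) = f x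
    rw [h1, Nat.sub_add_cancel (by omega), Function.iterate_add_apply, hmz]
    exact hi
  have hQe := hconn H (orb f z) (H \ ⋃ i : ℕ, f^[i] '' ball z ρ) hH (orb_finite f hp).isClosed hQ
    (by
      ext x
      constructor
      · rintro (h | h)
        · exact hPH h
        · exact h.1
      · intro h
        by_cases h2 : x ∈ (⋃ i : ℕ, f^[i] '' ball z ρ)
        · exact Or.inl (hmem x h h2)
        · exact Or.inr ⟨h, h2⟩)
    (Set.disjoint_left.2 fun x h1 h2 => h2.2 (hmem2 x h1)) hfP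
    (fun x hx => ⟨by
      rw [← hI]; exact ⟨x, hx.1, rfl⟩, fun hc => hx.2 (hmem2 x (hfP2 x (hmem (f x) (by
        rw [← hI]; exact ⟨x, hx.1, rfl⟩) hc)))⟩) ⟨z, orb_self f z⟩
  intro x hx
  apply hmem x hx
  by_contra hc
  have : x ∈ (∅ : Set X) := hQe ▸ (⟨hx, hc⟩ : x ∈ H \ ⋃ i : ℕ, f^[i] '' ball z ρ)
  exact this

/-- the periodic points are dense if there are infinitely many of them -/
theorem dense_per (h0 : S_T0.{u}) (f : X ≃ₜ X) (hiso : ∀ p ∈ Per f, Isolated f p) {H : Set X}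
    (hH : MinLim f H) (hinf : (Per f ∩ H).Infinite) : H ⊆ closure (Per f ∩ H) := by
  obtain ⟨hT, himg, -, -⟩ := h0 X f
  have hI := himg H hH.1
  let e := hinf.natEmbedding
  choose n hn hper using fun k : ℕ => (e k).2.1
  have hmemH : ∀ k i, f^[i] ((e k : (Per f ∩ H : Set X)) : X) ∈ Per f ∩ H := fun k i =>
    ⟨orb_per f (e k).2.1 ⟨i, rfl⟩, TI.image_it f hI (e k).2.2 i⟩
  obtain ⟨φ, H', hφ, hHc, hHn, hs⟩ := hT (fun k => ((e k : (Per f ∩ H : Set X)) : X)) n hn (by
    have : (fun k => dist (f^[n k] ((e k : (Per f ∩ H : Set X)) : X))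
        ((e k : (Per f ∩ H : Set X)) : X)) = fun _ => (0 : ℝ) := by
      ext k
      rw [hper k, dist_self]
    rw [this]
    exact tendsto_const_nhds)
  have hsub : H' ⊆ closure (Per f ∩ H) := by
    intro y hy
    rw [Metric.mem_closure_iff]
    intro ε hε
    obtain ⟨k, hk⟩ := (hs ε hε).exists
    obtain ⟨i, -, hi⟩ := hk.dense y hy
    exact ⟨_, hmemH _ i, by rw [dist_comm]; exact hi⟩
  have hclH : closure (Per f ∩ H) ⊆ H := by
    have := closure_mono (inter_subset_right : Per f ∩ H ⊆ H)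
    rwa [hH.1.1.closure_eq] at this
  have hlim : IsLim f H' := by
    refine ⟨hHc, hHn, fun ε hε => ?_⟩
    obtain ⟨k, hk⟩ := (hs ε hε).exists
    exact ⟨_, _, hk⟩
  have hnp : ¬ H' ⊆ Per f := by
    intro hP
    obtain ⟨q, hqH, ρ, hρ, hiz⟩ := TI.exists_isol H' hHc ((per_countable f hiso).mono hP) hHn
    have hq : q ∈ Per f := hP hqH
    have hHq : H' ⊆ orb f q := lim_orb h0 f hlim ⟨hρ, hqH, hiz⟩ hq
    obtain ⟨O, hO, hqO, hOo⟩ := hiso q hq
    obtain ⟨δ, hδ, hth⟩ := hHc.isCompact.exists_thickening_subset_open hO (hHq.trans hqO)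
    obtain ⟨N, hN⟩ := Filter.eventually_atTop.1 (hs δ hδ)
    have hin : ∀ k, N ≤ k → ((e (φ k) : (Per f ∩ H : Set X)) : X) ∈ orb f q := by
      intro k hk
      have hsk := hN k hk
      refine per_fwd f hOo _ (e (φ k)).2.1 fun i _ => subset_closure (hth ?_)
      rw [Pool.Agent.Y96.CO.T1.iter_mod (hper (φ k)) i]
      obtain ⟨y, hy, hd⟩ := hsk.near (i % n (φ k))
        (Nat.mod_lt _ (by have := hn (φ k); omega)).le
      exact mem_thickening_iff.2 ⟨y, hy, hd⟩
    have hinj : Function.Injective fun k => ((e (φ (k + N)) : (Per f ∩ H : Set X)) : X) := by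
      intro a b hab
      have h1 := e.injective (Subtype.ext hab)
      have h2 := hφ.injective h1
      omega
    exact (Set.infinite_of_injective_forall_mem hinj fun k => hin (k + N) (by omega))
      (orb_finite f hq)
  have hEq : H' = H := hH.2.2 H' (hsub.trans hclH) hlim hnp
  rw [hEq] at hsub
  exact hsub

/-- points near which a set is finite are isolated -/
theorem isol_of_finite {H F : Set X} (hF : F.Finite) {w : X} {r : ℝ} (hr : 0 < r) (hw : w ∈ H)
    (h : ∀ y ∈ H, dist y w < r → y ∈ F) : ∃ ρ, Isol H ρ w := by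
  have h1 : (F \ {w})ᶜ ∈ 𝓝 w :=
    (hF.subset diff_subset).isClosed.isOpen_compl.mem_nhds fun hc => hc.2 rfl
  obtain ⟨δ, hδ, hb⟩ := Metric.mem_nhds_iff.1 h1
  refine ⟨min r δ, lt_min hr hδ, hw, fun y hy hd => ?_⟩
  by_contra hne
  exact hb (mem_ball.2 (lt_of_lt_of_le hd (min_le_right _ _)))
    ⟨h y hy (lt_of_lt_of_le hd (min_le_left _ _)), hne⟩

theorem main (h0 : S_T0.{u}) : S_K3.{u} := by
  intro X _ _ f hiso H hH hom
  by_contra hinf
  have hd := dense_per h0 f hiso hH hinf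
  have hHc := hH.1.1
  have hHn := hH.1.2.1
  choose! O hO1 hO2 hO3 using hiso
  haveI : CompactSpace H := isCompact_iff_compactSpace.1 hHc.isCompact
  haveI : Nonempty H := hHn.to_subtype
  have hiso' : ∀ p ∈ Per f, Isolated f p := fun p hp => ⟨O p, hO1 p hp, hO2 p hp, hO3 p hp⟩
  haveI : Countable (Per f) := (per_countable f hiso').to_subtype
  let S : ℕ ⊕ (Per f × ℕ) → Set H := fun j => match j with
    | Sum.inl m => {x | f^[m + 1] (x : X) = x}
    | Sum.inr (p, m) => {x | ∀ i, m ≤ i → f^[i] (x : X) ∈ closure (O p)}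
  have hSc : ∀ j, IsClosed (S j) := by
    rintro (m | ⟨p, m⟩)
    · exact isClosed_eq ((f.continuous.iterate (m + 1)).comp continuous_subtype_val)
        continuous_subtype_val
    · have : S (Sum.inr (p, m)) = ⋂ i : ℕ, ⋂ _ : m ≤ i, {x : H | f^[i] (x : X) ∈ closure (O p)} := by
        ext x
        simp only [S, mem_setOf_eq, mem_iInter]
      rw [this]
      exact isClosed_iInter fun i => isClosed_iInter fun _ =>
        isClosed_closure.preimage ((f.continuous.iterate i).comp continuous_subtype_val)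
  have hSU : ⋃ j, S j = univ := by
    refine eq_univ_of_forall fun x => mem_iUnion.2 ?_
    by_cases hx : (x : X) ∈ Per f
    · obtain ⟨m, hm, hmx⟩ := hx
      refine ⟨Sum.inl (m - 1), ?_⟩
      show f^[m - 1 + 1] (x : X) = x
      rw [Nat.sub_add_cancel hm]
      exact hmx
    · obtain ⟨p, hp, -, ho⟩ := hom x x.2 hx
      obtain ⟨m, hm⟩ := eventually_atTop.1 (ho (O p) (hO1 p hp) (hO2 p hp))
      exact ⟨Sum.inr (⟨p, hp⟩, m), fun i hi => subset_closure (hm i hi)⟩
  obtain ⟨j, w, hw⟩ := nonempty_interior_of_iUnion_of_closed hSc hSU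
  obtain ⟨r, hr, hb⟩ := Metric.isOpen_iff.1 isOpen_interior w hw
  have hball : ∀ y (hy : y ∈ H), dist y (w : X) < r → (⟨y, hy⟩ : H) ∈ S j := by
    intro y hy hd
    refine interior_subset (hb ?_)
    rw [mem_ball]
    exact hd
  rcases j with m | ⟨p, m⟩
  · have hfin := fix_finite f hiso' (m + 1) (by omega)
    obtain ⟨ρ, hρ⟩ := isol_of_finite (H := H) hfin hr w.2 fun y hy hyd => hball y hy hyd
    have hwS : w ∈ S (Sum.inl m) := interior_subset hw
    exact TI.not_per h0 f hH hρ ⟨m + 1, by omega, hwS⟩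
  · have hp := p.2
    have hfin := orb_finite f hp
    have hperb : ∀ q ∈ Per f ∩ H, dist q (w : X) < r → q ∈ orb f p := by
      rintro q ⟨hq, hqH⟩ hqd
      have h1 : ∀ i, m ≤ i → f^[i] q ∈ closure (O p) := hball q hqH hqd
      refine per_fwd f (hO3 p hp) q hq fun l _ => ?_
      obtain ⟨N, hN, hNq⟩ := hq
      have h2 : f^[l] q = f^[l + N * m] q := by
        have h3 : Function.IsPeriodicPt f N q := hNq
        have h4 : f^[N * m] q = q := h3.mul_const m
        rw [Function.iterate_add_apply, h4]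
      rw [h2]
      exact h1 _ (by nlinarith)
    have hball2 : ∀ y ∈ H, dist y (w : X) < r → y ∈ orb f p := by
      intro y hy hyd
      rw [← hfin.isClosed.closure_eq, Metric.mem_closure_iff]
      intro ε hε
      obtain ⟨q, hq, hqy⟩ := Metric.mem_closure_iff.1 (hd hy) (min ε (r - dist y w))
        (lt_min hε (by linarith))
      refine ⟨q, hperb q hq ?_, lt_of_lt_of_le hqy (min_le_left _ _)⟩
      have h5 := lt_of_lt_of_le hqy (min_le_right _ _)
      have h6 := dist_triangle_left q (w : X) y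
      linarith
    obtain ⟨ρ, hρ⟩ := isol_of_finite (H := H) hfin hr w.2 hball2
    exact TI.not_per h0 f hH hρ (orb_per f hp (hball2 w w.2 (by rw [dist_self]; exact hr)))

end Pool.Agent.Y987.CO.K3
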